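import Pool.Agent.X239.RZ.Main

set_option autoImplicit false

/-!
Antisymmetry of the realizability preorder on the perfect matchings of `K_n`.

Proof. Let `M ≠ N`, let `i` be the smallest vertex with different partners, `M(i) < N(i) = b`, let
`A` be the set of the vertices up to `i` (in one exceptional case up to `i + 1`), `B` the set of
the vertices from `b` on and `R` the rest. In a graph that contains a matching `M` the degree sum of
`A` minus the degree sum of `B` is at most `|A|(n-1-|B|) - |B|` plus the number of the edges of `M`
between `A` and `B`, and `N` has one more such edge. It remains to find a graph that contains `N`,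
attains the bound and has a non-increasing degree sequence. Take `A` complete and completely joined
to `R`; the only neighbour outside `A` of a vertex of `B` is its partner, if this is outside `A`;
`A` is completely joined to `B` with the exception that the last vertex of `A` is not joined to
the vertices of `B` with partner outside `A`; so all vertices of `B` have degree `|A|`. Finally `R`
is complete up to a matching of the vertices of `R` with partner in `B`, which is changed a little
at the last vertex of `R` if their number is odd.
-/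

namespace Pool.Agent.Results.MP_cd59f5_co.Antisymmetric

/-- `M` is a perfect matching of the complete graph on `{0, …, n-1}`: every vertex has exactly one
neighbour. -/
def IsPerfectMatching {n : ℕ} (M : SimpleGraph (Fin n)) : Prop := ∀ v, ∃! w, M.Adj v w

/-- `d` can realize `M`: some simple graph on `{0, …, n-1}` in which every vertex `v` has exactly
`d v` neighbours contains all edges of `M`. -/
def CanRealize {n : ℕ} (d : Fin n → ℕ) (M : SimpleGraph (Fin n)) : Prop :=
  ∃ G : SimpleGraph (Fin n), M ≤ G ∧ ∀ v, (G.neighborSet v).ncard = d v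

/-- `R M` is the set of the sequences `d 0 ≥ d 1 ≥ … ≥ d (n-1) ≥ 1` that can realize `M`. -/
def R {n : ℕ} (M : SimpleGraph (Fin n)) : Set (Fin n → ℕ) :=
  {d | (∀ i j : Fin n, i ≤ j → d j ≤ d i) ∧ (∀ i, 1 ≤ d i) ∧ CanRealize d M}

open Pool.Agent.X239.RZ in
/-- Two different perfect matchings `M`, `N` of the complete graph on `{0, …, n-1}` are not realized
by the same non-increasing sequences of positive integers: the preorder `N ≼ M :↔ R M ⊆ R N` is
antisymmetric, for all (even) `n`. -/
theorem result (n : ℕ) (M N : SimpleGraph (Fin n)) (hM : IsPerfectMatching M)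
    (hN : IsPerfectMatching N) (hMN : R M ⊆ R N) (hNM : R N ⊆ R M) : M = N := by
  classical
  have hdg : ∀ (G : SimpleGraph (Fin n)) v, (G.neighborSet v).ncard = dg G v := by
    intro G v
    unfold dg
    rw [← Set.ncard_coe_finset]
    congr 1
    ext w
    simp
  choose q hq hq' using hM
  choose p hp hp' using hN
  have hqq : ∀ v, q (q v) = v := fun v => (hq' (q v) v (hq v).symm).symm
  have hpp : ∀ v, p (p v) = v := fun v => (hp' (p v) v (hp v).symm).symm
  have hqn : ∀ v, q v ≠ v := fun v h => M.ne_of_adj (hq v) h.symm
  have hpn : ∀ v, p v ≠ v := fun v h => N.ne_of_adj (hp v) h.symm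
  have hMa : ∀ v w, M.Adj v w ↔ w = q v := fun v w => ⟨fun h => hq' v w h, fun h => h ▸ hq v⟩
  have hNa : ∀ v w, N.Adj v w ↔ w = p v := fun v w => ⟨fun h => hp' v w h, fun h => h ▸ hp v⟩
  -- one direction of the main step
  have one : ∀ (M N : SimpleGraph (Fin n)) (q p : Fin n → Fin n),
      (∀ v w, M.Adj v w ↔ w = q v) → (∀ v w, N.Adj v w ↔ w = p v) →
      (∀ v, q (q v) = v) → (∀ v, p (p v) = v) → (∀ v, q v ≠ v) → (∀ v, p v ≠ v) → R N ⊆ R M →
      ∀ i : Fin n, (∀ j : Fin n, j < i → p j = q j) → ¬ q i < p i := by
    intro M N q p hMa hNa hqq hpp hqn hpn hNM i hi hlt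
    obtain ⟨G, h1, h2, h3⟩ := main_step p q hpp hqq hpn hqn i hi hlt
    have hd : (fun v => dg G v) ∈ R N := by
      refine ⟨h2, fun v => ?_, G, ?_, fun v => hdg G v⟩
      · show 0 < dg G v
        unfold dg
        rw [Finset.card_pos]
        exact ⟨p v, by simp [h1 v]⟩
      · intro v w h
        rw [hNa] at h
        rw [h]
        exact h1 v
    obtain ⟨-, -, G', g1, g2⟩ := hNM hd
    refine h3 G' (fun v => ?_) fun v => g1 ((hMa v (q v)).2 rfl)
    rw [← hdg G', g2]
  by_contra hne
  -- the first difference
  have hex : ∃ i : Fin n, p i ≠ q i := by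
    by_contra h
    push Not at h
    apply hne
    ext v w
    rw [hMa, hNa, h]
  have hmin : ∃ i : Fin n, p i ≠ q i ∧ ∀ j : Fin n, j < i → p j = q j := by
    obtain ⟨i, hi, hi'⟩ := WellFounded.has_min (wellFounded_lt (α := Fin n)) {i | p i ≠ q i} hex
    exact ⟨i, hi, fun j hj => by
      by_contra h
      exact hi' j h hj⟩
  obtain ⟨i, hi1, hi2⟩ := hmin
  rcases lt_or_gt_of_ne hi1 with h | h
  · exact one N M p q hNa hMa hpp hqq hpn hqn hMN i (fun j hj => (hi2 j hj).symm) h
  · exact one M N q p hMa hNa hqq hpp hqn hpn hNM i hi2 h

end Pool.Agent.Results.MP_cd59f5_co.Antisymmetric
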